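import Pool.Agent.H38R2.CG.SPL

set_option autoImplicit false

/-! Integral coordinates in an arbitrary quadratic field. -/

namespace Pool.Agent.K4H20.QF

open NumberField Module
open Pool.Agent.H38R2.CG.SPLh

variable {K : Type} [Field K] [NumberField K]

/-- coordinates with respect to a basis `1, w` with `w ^ 2 = t w - n` -/
theorem exists_co0 (h2 : finrank ℚ K = 2) : ∃ t n : ℤ, Nonempty (Co K t n) := by
  have hr : finrank ℤ (𝓞 K) = 2 := by rw [RingOfIntegers.rank, h2]
  let b : Basis (Fin 2) ℤ (𝓞 K) := (finBasis ℤ (𝓞 K)).reindex (finCongr hr)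
  have hb : ∀ x, x = (b.repr x 0 : 𝓞 K) * b 0 + (b.repr x 1 : 𝓞 K) * b 1 := by
    intro x
    have := b.sum_repr x
    rw [Fin.sum_univ_two, zsmul_eq_mul, zsmul_eq_mul] at this
    exact this.symm
  set a : ℤ := b.repr 1 0 with ha
  set c : ℤ := b.repr 1 1 with hc
  have h1 : (1 : 𝓞 K) = (a : 𝓞 K) * b 0 + (c : 𝓞 K) * b 1 := hb 1
  have hcop : IsCoprime a c := by
    rw [Int.isCoprime_iff_gcd_eq_one]
    by_contra hg
    set g := Int.gcd a c with hgd
    have hga : (g : ℤ) ∣ a := Int.gcd_dvd_left _ _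
    have hgc : (g : ℤ) ∣ c := Int.gcd_dvd_right _ _
    obtain ⟨a', ha'⟩ := hga
    obtain ⟨c', hc'⟩ := hgc
    have h3 : (1 : 𝓞 K) = ((g : ℤ) : 𝓞 K) * ((a' : 𝓞 K) * b 0 + (c' : 𝓞 K) * b 1) := by
      rw [h1, ha', hc']
      push_cast
      ring
    have hu : IsUnit ((g : ℤ) : 𝓞 K) := IsUnit.of_mul_eq_one _ h3.symm
    have hn : IsUnit (Algebra.norm ℤ ((g : ℤ) : 𝓞 K)) := hu.map _
    have e : ((g : ℤ) : 𝓞 K) = algebraMap ℤ (𝓞 K) (g : ℤ) := by simp
    rw [e, Algebra.norm_algebraMap, hr, Int.isUnit_iff] at hn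
    have hg0 : (0 : ℤ) ≤ g := Int.natCast_nonneg g
    apply hg
    rcases hn with h4 | h4
    · have : (g : ℤ) = 1 := by nlinarith
      exact_mod_cast this
    · nlinarith
  obtain ⟨v, u, huv⟩ := hcop
  let w : 𝓞 K := -((u : 𝓞 K)) * b 0 + (v : 𝓞 K) * b 1
  let A : 𝓞 K → ℤ := fun x => v * b.repr x 0 + u * b.repr x 1
  let B : 𝓞 K → ℤ := fun x => -c * b.repr x 0 + a * b.repr x 1
  have hA : ∀ x y, A (x + y) = A x + A y := by
    intro x y
    simp only [A, map_add, Finsupp.add_apply]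
    ring
  have hB : ∀ x y, B (x + y) = B x + B y := by
    intro x y
    simp only [B, map_add, Finsupp.add_apply]
    ring
  have hAs : ∀ (m : ℤ) x, A ((m : 𝓞 K) * x) = m * A x := by
    intro m x
    rw [← zsmul_eq_mul]
    simp only [A, map_zsmul, Finsupp.smul_apply, smul_eq_mul]
    ring
  have hBs : ∀ (m : ℤ) x, B ((m : 𝓞 K) * x) = m * B x := by
    intro m x
    rw [← zsmul_eq_mul]
    simp only [B, map_zsmul, Finsupp.smul_apply, smul_eq_mul]
    ring
  have hA1 : A 1 = 1 := by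
    simp only [A]
    rw [← ha, ← hc]
    exact huv
  have hB1 : B 1 = 0 := by
    simp only [B]
    rw [← ha, ← hc]
    ring
  have hw0 : b.repr w 0 = -u := by
    have : w = (-u) • b 0 + v • b 1 := by
      rw [zsmul_eq_mul, zsmul_eq_mul]
      push_cast
      rfl
    rw [this, map_add, map_zsmul, map_zsmul, Finsupp.add_apply, Finsupp.smul_apply,
      Finsupp.smul_apply, Basis.repr_self, Basis.repr_self, Finsupp.single_eq_same,
      Finsupp.single_eq_of_ne (by decide)]
    simp only [smul_eq_mul, mul_one, mul_zero, add_zero]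
  have hw1 : b.repr w 1 = v := by
    have : w = (-u) • b 0 + v • b 1 := by
      rw [zsmul_eq_mul, zsmul_eq_mul]
      push_cast
      rfl
    rw [this, map_add, map_zsmul, map_zsmul, Finsupp.add_apply, Finsupp.smul_apply,
      Finsupp.smul_apply, Basis.repr_self, Basis.repr_self, Finsupp.single_eq_same,
      Finsupp.single_eq_of_ne (by decide)]
    simp only [smul_eq_mul, mul_one, mul_zero, zero_add]
  have hAw : A w = 0 := by
    simp only [A, hw0, hw1]
    ring
  have hBw : B w = 1 := by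
    simp only [B, hw0, hw1]
    linarith
  have heq : ∀ x, x = (A x : 𝓞 K) + (B x : 𝓞 K) * w := by
    intro x
    have h3 := hb x
    set x0 := b.repr x 0
    set x1 := b.repr x 1
    have huv' : ((v : 𝓞 K)) * a + u * c = 1 := by exact_mod_cast congrArg (fun z : ℤ => (z : 𝓞 K)) huv
    have h4 : ((A x : ℤ) : 𝓞 K) = (v : 𝓞 K) * x0 + u * x1 := by simp only [A]; push_cast; rfl
    have h5 : ((B x : ℤ) : 𝓞 K) = -(c : 𝓞 K) * x0 + a * x1 := by simp only [B]; push_cast; rfl
    rw [h4, h5]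
    have h6 : (v : 𝓞 K) * x0 + u * x1 = ((v : 𝓞 K) * x0 + u * x1) * ((a : 𝓞 K) * b 0 + (c : 𝓞 K) * b 1) := by
      rw [← h1, mul_one]
    rw [h6]
    simp only [w]
    conv_lhs => rw [h3]
    linear_combination (-((x0 : 𝓞 K) * b 0 + (x1 : 𝓞 K) * b 1)) * huv'
  have hAi : ∀ m : ℤ, A (m : 𝓞 K) = m := by
    intro m
    have := hAs m 1
    rwa [mul_one, hA1, mul_one] at this
  have hBi : ∀ m : ℤ, B (m : 𝓞 K) = 0 := by
    intro m
    have := hBs m 1
    rwa [mul_one, hB1, mul_zero] at this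
  set t : ℤ := B (w * w) with ht
  set n : ℤ := -A (w * w) with hn
  have hww : w * w = ((-n : ℤ) : 𝓞 K) + ((t : ℤ) : 𝓞 K) * w := by
    have := heq (w * w)
    rw [hn, ht, neg_neg]
    exact this
  have hxy : ∀ x y, x * y = ((A x * A y - n * (B x * B y) : ℤ) : 𝓞 K) +
      ((A x * B y + A y * B x + t * (B x * B y) : ℤ) : 𝓞 K) * w := by
    intro x y
    conv_lhs => rw [heq x, heq y]
    push_cast at hww ⊢
    linear_combination ((B x : 𝓞 K) * (B y : 𝓞 K)) * hww
  refine ⟨t, n, ⟨⟨A, B, w, hA, hB, ?_, ?_, hAi, hBi, hAw, hBw, heq⟩⟩⟩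
  · intro x y
    rw [hxy, hA, hAi, hAs, hAw]
    ring
  · intro x y
    rw [hxy, hB, hBi, hBs, hBw]
    ring

theorem co_zsmul {t n : ℤ} (C : Co K t n) (m : ℤ) (x : 𝓞 K) :
    C.A ((m : 𝓞 K) * x) = m * C.A x ∧ C.B ((m : 𝓞 K) * x) = m * C.B x := by
  constructor
  · rw [C.mulA, C.intA, C.intB]; ring
  · rw [C.mulB, C.intA, C.intB]; ring

/-- the basis attached to coordinates -/
noncomputable def bas {t n : ℤ} (C : Co K t n) : Basis (Fin 2) ℤ (𝓞 K) :=
  Basis.ofEquivFun
    { toFun := fun x => ![C.A x, C.B x]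
      map_add' := fun x y => by
        rw [C.addA, C.addB]
        ext i
        fin_cases i <;> simp
      map_smul' := fun m x => by
        rw [zsmul_eq_mul, (co_zsmul C m x).1, (co_zsmul C m x).2]
        ext i
        fin_cases i <;> simp
      invFun := fun y => (y 0 : 𝓞 K) + (y 1 : 𝓞 K) * C.w
      left_inv := fun x => (C.eq x).symm
      right_inv := fun y => by
        ext i
        fin_cases i
        · simp [C.addA, C.intA, (co_zsmul C _ _).1, C.Aw]
        · simp [C.addB, C.intB, (co_zsmul C _ _).2, C.Bw] }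

theorem bas_repr {t n : ℤ} (C : Co K t n) (x : 𝓞 K) :
    (bas C).repr x 0 = C.A x ∧ (bas C).repr x 1 = C.B x := by
  constructor <;>
  · rw [bas, Basis.ofEquivFun_repr_apply]
    rfl

theorem bas_zero {t n : ℤ} (C : Co K t n) : bas C 0 = 1 := by
  apply (bas C).repr.injective
  ext i
  have h1 := C.intA 1
  have h2 := C.intB 1
  rw [Int.cast_one] at h1 h2
  fin_cases i
  · change (bas C).repr (bas C 0) 0 = (bas C).repr 1 0
    rw [(bas_repr C 1).1, h1]
    simp
  · change (bas C).repr (bas C 0) 1 = (bas C).repr 1 1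
    rw [(bas_repr C 1).2, h2]
    simp

theorem bas_one {t n : ℤ} (C : Co K t n) : bas C 1 = C.w := by
  apply (bas C).repr.injective
  ext i
  fin_cases i
  · change (bas C).repr (bas C 1) 0 = (bas C).repr C.w 0
    rw [(bas_repr C C.w).1, C.Aw]
    simp
  · change (bas C).repr (bas C 1) 1 = (bas C).repr C.w 1
    rw [(bas_repr C C.w).2, C.Bw]
    simp

theorem trace_eq {t n : ℤ} (C : Co K t n) (x : 𝓞 K) :
    Algebra.trace ℤ (𝓞 K) x = 2 * C.A x + t * C.B x := by
  rw [Algebra.trace_eq_matrix_trace (bas C), Matrix.trace, Fin.sum_univ_two, Matrix.diag_apply,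
    Matrix.diag_apply, Algebra.leftMulMatrix_eq_repr_mul, Algebra.leftMulMatrix_eq_repr_mul,
    bas_zero, bas_one, mul_one, (bas_repr C _).1, (bas_repr C _).2, C.mulB, C.Aw, C.Bw]
  ring

theorem discr_eq {t n : ℤ} (C : Co K t n) : discr K = t ^ 2 - 4 * n := by
  have h1 := C.intA 1
  have h2 := C.intB 1
  rw [Int.cast_one] at h1 h2
  rw [← NumberField.discr_eq_discr K (bas C), Algebra.discr_def, Matrix.det_fin_two]
  simp only [Algebra.traceMatrix_apply, Algebra.traceForm_apply, bas_zero, bas_one, trace_eq C,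
    mul_one, one_mul, C.mulA, C.mulB, C.Aw, C.Bw, h1, h2]
  ring

/-- shift of the generator -/
def shift {t n : ℤ} (C : Co K t n) (k : ℤ) : Co K (t + 2 * k) (n + t * k + k ^ 2) where
  A x := C.A x - k * C.B x
  B := C.B
  w := C.w + (k : 𝓞 K)
  addA x y := by rw [C.addA, C.addB]; ring
  addB := C.addB
  mulA x y := by rw [C.mulA, C.mulB]; ring
  mulB x y := by rw [C.mulB]; ring
  intA m := by rw [C.intA, C.intB]; ring
  intB := C.intB
  Aw := by rw [C.addA, C.addB, C.Aw, C.Bw, C.intA, C.intB]; ring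
  Bw := by rw [C.addB, C.Bw, C.intB]; ring
  eq x := by
    conv_lhs => rw [C.eq x]
    push_cast
    ring

theorem exists_co (h2 : finrank ℚ K = 2) :
    ∃ n : ℤ, 4 * n = discr K ^ 2 - discr K ∧ Nonempty (Co K (discr K) n) := by
  obtain ⟨t, n, ⟨C⟩⟩ := exists_co0 h2
  have hd := discr_eq C
  obtain ⟨k, hk⟩ : ∃ k : ℤ, discr K = t + 2 * k := by
    have h3 : Even (t ^ 2 - t) := by
      rw [show t ^ 2 - t = (t - 1) * t by ring]
      have := Int.even_mul_succ_self (t - 1)
      rwa [sub_add_cancel] at this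
    obtain ⟨j, hj⟩ := h3
    exact ⟨j - 2 * n, by rw [hd]; linarith⟩
  have C' := shift C k
  rw [← hk] at C'
  refine ⟨_, ?_, ⟨C'⟩⟩
  have hd' := discr_eq C'
  linarith

end Pool.Agent.K4H20.QF
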