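import Pool.Agent.K4H20.QF.A

set_option autoImplicit false

/-! The discriminant of a quadratic field is a fundamental discriminant. -/

namespace Pool.Agent.K4H20.QF

open NumberField Module
open Pool.Agent.H38R2.CG.SPLh

/-- fundamental discriminants (including `1`) -/
def Fund (D : ℤ) : Prop :=
  (D % 4 = 1 ∧ Squarefree D.natAbs) ∨ ∃ m : ℤ, D = 4 * m ∧ (m % 4 = 2 ∨ m % 4 = 3) ∧
    Squarefree m.natAbs

variable {K : Type} [Field K] [NumberField K]

theorem int_of (x : K) (b c : ℤ) (h : x ^ 2 = b * x + c) : ∃ z : 𝓞 K, algebraMap (𝓞 K) K z = x := by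
  have hi : IsIntegral ℤ x := by
    refine ⟨Polynomial.X ^ 2 - Polynomial.C b * Polynomial.X - Polynomial.C c, ?_, ?_⟩
    · rw [sub_sub]
      apply Polynomial.monic_X_pow_sub (n := 2)
      refine (Polynomial.degree_add_le _ _).trans_lt ?_
      rw [max_lt_iff]
      constructor
      · exact (Polynomial.degree_C_mul_X_le b).trans_lt (by norm_num)
      · exact (Polynomial.degree_C_le).trans_lt (by norm_num)
    · simp only [Polynomial.eval₂_sub, Polynomial.eval₂_mul, Polynomial.eval₂_pow,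
        Polynomial.eval₂_X, Polynomial.eval₂_C]
      rw [h]
      simp
  exact ⟨⟨x, hi⟩, rfl⟩

theorem div_of (y : 𝓞 K) (p : ℕ) (hp : p ≠ 0) (c : ℤ) (h : y ^ 2 = ((p * p * c : ℤ) : 𝓞 K)) :
    ∃ z : 𝓞 K, y = ((p : ℤ) : 𝓞 K) * z := by
  have hpK : (p : K) ≠ 0 := by exact_mod_cast hp
  have hcast : ∀ m : ℤ, algebraMap (𝓞 K) K (m : 𝓞 K) = (m : K) :=
    fun m => map_intCast (algebraMap (𝓞 K) K) m
  have h2 : (algebraMap (𝓞 K) K y) ^ 2 = (p : K) * p * c := by
    have h3 := congrArg (algebraMap (𝓞 K) K) h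
    rw [map_pow, hcast] at h3
    rw [h3]
    push_cast
    rfl
  obtain ⟨z, hz⟩ := int_of ((algebraMap (𝓞 K) K y) / p) 0 c (by
    rw [div_pow, h2]
    push_cast
    field_simp
    ring)
  refine ⟨z, ?_⟩
  apply RingOfIntegers.ext
  change algebraMap (𝓞 K) K y = algebraMap (𝓞 K) K (((p : ℤ) : 𝓞 K) * z)
  rw [map_mul, hcast, hz]
  push_cast
  field_simp

theorem fund_of {D n : ℤ} (hn : 4 * n = D ^ 2 - D) (C : Co K D n) (hD : D ≠ 0) : Fund D := by
  set s : 𝓞 K := (2 : ℤ) * C.w + ((-D : ℤ) : 𝓞 K) with hs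
  have hBs : C.B s = 2 := by
    rw [hs, C.addB, (co_zsmul C 2 C.w).2, C.Bw, C.intB]
    norm_num
  have hAs : C.A s = -D := by
    rw [hs, C.addA, (co_zsmul C 2 C.w).1, C.Aw, C.intA]
    norm_num
  have hss : s ^ 2 = (D : 𝓞 K) := by
    rw [C.eq (s ^ 2), pow_two, C.mulA, C.mulB, hAs, hBs]
    have e1 : -D * -D - n * (2 * 2) = D := by linarith
    have e2 : -D * 2 + -D * 2 + D * (2 * 2) = 0 := by ring
    rw [e1, e2]
    simp
  have hD4 : D % 4 = 0 ∨ D % 4 = 1 := by
    have h3 : D % 4 = 0 ∨ D % 4 = 1 ∨ D % 4 = 2 ∨ D % 4 = 3 := by omega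
    rcases h3 with h | h | h | h
    · exact Or.inl h
    · exact Or.inr h
    · exfalso
      obtain ⟨k, hk⟩ : ∃ k, D = 4 * k + 2 := ⟨D / 4, by omega⟩
      rw [hk] at hn
      ring_nf at hn
      omega
    · exfalso
      obtain ⟨k, hk⟩ : ∃ k, D = 4 * k + 3 := ⟨D / 4, by omega⟩
      rw [hk] at hn
      ring_nf at hn
      omega
  rcases hD4 with h | h
  · right
    obtain ⟨m, hm⟩ : ∃ m, D = 4 * m := ⟨D / 4, by omega⟩
    have hm0 : m ≠ 0 := by rintro rfl; exact hD (by rw [hm]; ring)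
    set r : 𝓞 K := C.w + ((-(2 * m) : ℤ) : 𝓞 K) with hr
    have hBr : C.B r = 1 := by rw [hr, C.addB, C.Bw, C.intB]; norm_num
    have hAr : C.A r = -(2 * m) := by rw [hr, C.addA, C.Aw, C.intA]; ring
    have hrr : r ^ 2 = (m : 𝓞 K) := by
      rw [C.eq (r ^ 2), pow_two, C.mulA, C.mulB, hAr, hBr]
      have e1 : -(2 * m) * -(2 * m) - n * (1 * 1) = m := by
        rw [hm] at hn
        linarith
      have e2 : -(2 * m) * 1 + -(2 * m) * 1 + D * (1 * 1) = 0 := by rw [hm]; ring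
      rw [e1, e2]
      simp
    have hsq : Squarefree m.natAbs := by
      rw [Nat.squarefree_iff_prime_squarefree]
      intro p hp hdvd
      have h1 : ((p * p : ℕ) : ℤ) ∣ m := by
        rw [← Int.natCast_dvd_natCast] at hdvd
        exact hdvd.trans (Int.natAbs_dvd.2 dvd_rfl) |>.trans dvd_rfl
      obtain ⟨c, hc⟩ := h1
      obtain ⟨z, hz⟩ := div_of r p hp.ne_zero c (by rw [hrr, hc]; push_cast; rfl)
      have h2 := (co_zsmul C p z).2
      rw [← hz, hBr] at h2
      have h3 : (p : ℤ) ∣ 1 := ⟨_, h2⟩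
      have h4 : p ∣ 1 := by exact_mod_cast h3
      exact hp.one_lt.ne' (Nat.dvd_one.1 h4)
    refine ⟨m, hm, ?_, hsq⟩
    have h5 : m % 4 = 0 ∨ m % 4 = 1 ∨ m % 4 = 2 ∨ m % 4 = 3 := by omega
    rcases h5 with h6 | h6 | h6 | h6
    · exfalso
      have h7 : 2 * 2 ∣ m.natAbs := by omega
      exact (Nat.squarefree_iff_prime_squarefree.1 hsq) 2 Nat.prime_two h7
    · exfalso
      obtain ⟨k, hk⟩ : ∃ k, m = 4 * k + 1 := ⟨m / 4, by omega⟩
      have hcast : ∀ m : ℤ, algebraMap (𝓞 K) K (m : 𝓞 K) = (m : K) :=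
        fun m => map_intCast (algebraMap (𝓞 K) K) m
      have hrK : (algebraMap (𝓞 K) K r) ^ 2 = m := by
        have h3 := congrArg (algebraMap (𝓞 K) K) hrr
        rw [map_pow, hcast] at h3
        exact h3
      obtain ⟨z, hz⟩ := int_of ((1 + (algebraMap (𝓞 K) K r)) / 2) 1 k (by
        have hkK : (m : K) = 4 * k + 1 := by rw [hk]; push_cast; ring
        rw [hkK] at hrK
        push_cast
        linear_combination (1 / 4 : K) * hrK)
      have h8 : (1 : 𝓞 K) + r = ((2 : ℤ) : 𝓞 K) * z := by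
        apply RingOfIntegers.ext
        change algebraMap (𝓞 K) K (1 + r) = algebraMap (𝓞 K) K (((2 : ℤ) : 𝓞 K) * z)
        rw [map_mul, hcast, hz, map_add, map_one]
        push_cast
        ring
      have h9 := congrArg C.B h8
      have hB1 := C.intB 1
      rw [Int.cast_one] at hB1
      rw [(co_zsmul C 2 z).2, C.addB, hB1, hBr] at h9
      omega
    · exact Or.inl h6
    · exact Or.inr h6
  · left
    refine ⟨h, ?_⟩
    rw [Nat.squarefree_iff_prime_squarefree]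
    intro p hp hdvd
    have h1 : ((p * p : ℕ) : ℤ) ∣ D := by
      rw [← Int.natCast_dvd_natCast] at hdvd
      exact hdvd.trans (Int.natAbs_dvd.2 dvd_rfl) |>.trans dvd_rfl
    obtain ⟨c, hc⟩ := h1
    obtain ⟨z, hz⟩ := div_of s p hp.ne_zero c (by rw [hss, hc]; push_cast; rfl)
    have h2 := (co_zsmul C p z).2
    rw [← hz, hBs] at h2
    have h3 : (p : ℤ) ∣ 2 := ⟨_, h2⟩
    have h4 : p ∣ 2 := by exact_mod_cast h3
    have h5 : p = 2 := (Nat.prime_dvd_prime_iff_eq hp Nat.prime_two).1 h4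
    rw [h5] at hc
    push_cast at hc
    omega

end Pool.Agent.K4H20.QF
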