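import Pool.Agent.K4H20.QF.B
import Pool.Agent.H38R2.CG.KR

set_option autoImplicit false

/-! The quadratic character of a fundamental discriminant of any sign. -/

namespace Pool.Agent.K4H20.QF

open NumberTheorySymbols
open Pool.Agent.H38R2.CG

theorem prim_of {N : ℕ} [NeZero N] (χ : DirichletCharacter ℂ N)
    (h : ∀ q : ℕ, q.Prime → q ∣ N → ∃ n : ℕ, n.Coprime N ∧ n ≡ 1 [MOD N / q] ∧
      χ (n : ZMod N) ≠ 1) : χ.IsPrimitive := by
  rw [DirichletCharacter.isPrimitive_def]
  by_contra hc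
  have hd : χ.conductor ∣ N := DirichletCharacter.conductor_dvd_level χ
  obtain ⟨k, hk⟩ := hd
  have hk1 : k ≠ 1 := by
    rintro rfl
    exact hc (by rw [mul_one] at hk; exact hk.symm)
  obtain ⟨q, hq, hqk⟩ := Nat.exists_prime_and_dvd hk1
  obtain ⟨j, hj⟩ := hqk
  have hqN : q ∣ N := ⟨χ.conductor * j, hk.trans (by rw [hj]; ring)⟩
  obtain ⟨n, hn1, hn2, hn3⟩ := h q hq hqN
  apply hn3
  have hcd : χ.conductor ∣ N / q := by
    refine ⟨j, ?_⟩
    apply Nat.div_eq_of_eq_mul_left hq.pos
    exact hk.trans (by rw [hj]; ring)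
  have hn4 : n ≡ 1 [MOD χ.conductor] := hn2.of_dvd hcd
  obtain ⟨hdv, χ₀, hχ⟩ := χ.factorsThrough_conductor
  have hu : IsUnit ((n : ℕ) : ZMod N) := (ZMod.isUnit_iff_coprime n N).2 hn1
  rw [hχ]
  have h2 := DirichletCharacter.changeLevel_eq_cast_of_dvd χ₀ hdv hu.unit
  rw [hu.unit_spec] at h2
  rw [h2]
  have h3 : (((n : ℕ) : ZMod N).cast : ZMod χ.conductor) = 1 := by
    rw [ZMod.cast_natCast hdv]
    have := (ZMod.natCast_eq_natCast_iff n 1 χ.conductor).2 hn4
    rw [this, Nat.cast_one]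
  rw [h3, map_one]

theorem recip {a : ℤ} (ha : a % 4 = 1) {n : ℕ} (hn : Odd n) :
    jacobiSym a n = jacobiSym n a.natAbs := by
  rcases le_or_gt 0 a with h | h
  · obtain ⟨b, rfl⟩ := Int.eq_ofNat_of_zero_le h
    rw [Int.natAbs_natCast]
    exact jacobiSym.quadratic_reciprocity_one_mod_four (by omega) hn
  · obtain ⟨b, hb⟩ : ∃ b : ℕ, a = -(b : ℤ) := ⟨a.natAbs, by omega⟩
    subst hb
    rw [Int.natAbs_neg, Int.natAbs_natCast, jacobiSym.neg _ hn]
    have hb3 : b % 4 = 3 := by omega
    have hn4 : n % 4 = 1 ∨ n % 4 = 3 := by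
      have := Nat.odd_iff.1 hn
      omega
    rcases hn4 with h4 | h4
    · rw [ZMod.χ₄_nat_one_mod_four h4, one_mul]
      exact jacobiSym.quadratic_reciprocity_one_mod_four' (Nat.odd_iff.2 (by omega)) h4
    · rw [ZMod.χ₄_nat_three_mod_four h4, jacobiSym.quadratic_reciprocity_three_mod_four hb3 h4]
      ring

/-- a nonresidue and `1` modulo a coprime number -/
theorem exists_nonres {q M : ℕ} (hq : q.Prime) (hq2 : q ≠ 2) (hc : Nat.Coprime q M) :
    ∃ n : ℕ, jacobiSym n q = -1 ∧ n ≡ 1 [MOD M] := by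
  have : Fact q.Prime := ⟨hq⟩
  obtain ⟨a, ha⟩ := FiniteField.exists_nonsquare (F := ZMod q) (by
    rw [ZMod.ringChar_zmod_n]
    exact hq2)
  obtain ⟨n, hn1, hn2⟩ := Nat.chineseRemainder hc a.val 1
  refine ⟨n, ?_, hn2⟩
  have h5 : ((n : ℤ)) % (q : ℤ) = (a.val : ℤ) % (q : ℤ) := by exact_mod_cast hn1
  rw [jacobiSym.mod_left' h5, ← jacobiSym.legendreSym.to_jacobiSym, legendreSym.eq_neg_one_iff]
  simpa using ha

theorem jac_one_mod {m : ℤ} {n : ℕ} (hn : Odd n) (h : n ≡ 1 [MOD 4 * m.natAbs]) :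
    jacobiSym m n = 1 := by
  rw [jacobiSym.mod_right m hn, h, ← jacobiSym.mod_right m odd_one, jacobiSym.one_right]

theorem coprime_of_jac {n q : ℕ} (hq : q.Prime) (h : jacobiSym n q = -1) : n.Coprime q := by
  by_contra hc
  have : NeZero q := ⟨hq.ne_zero⟩
  have := (jacobiSym.eq_zero_iff_not_coprime (a := (n : ℤ)) (b := q)).2 (by simpa using hc)
  rw [this] at h
  norm_num at h

theorem inv_self {N : ℕ} [NeZero N] (χ : DirichletCharacter ℂ N) (g : ℕ → ℤ)
    (h : ∀ n : ℕ, χ (n : ZMod N) = (g n : ℂ)) (hg : ∀ n, g n = 0 ∨ g n = 1 ∨ g n = -1) :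
    χ⁻¹ = χ := by
  ext a
  rw [MulChar.inv_apply_eq_inv']
  obtain ⟨n, hn⟩ : ∃ n : ℕ, (n : ZMod N) = ((a : (ZMod N)ˣ) : ZMod N) :=
    ⟨((a : (ZMod N)ˣ) : ZMod N).val, ZMod.natCast_zmod_val _⟩
  rw [← hn, h]
  rcases hg n with h1 | h1 | h1 <;> rw [h1] <;> norm_num

theorem exists_quad_one {D : ℤ} (h4 : D % 4 = 1) (hsq : Squarefree D.natAbs) (h1 : D ≠ 1) :
    ∃ χ : DirichletCharacter ℂ D.natAbs, χ.IsPrimitive ∧ χ⁻¹ = χ ∧
      ∀ p : ℕ, p.Prime → χ (p : ZMod D.natAbs) = (chi D p : ℂ) := by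
  have hN0 : D.natAbs ≠ 0 := hsq.ne_zero
  have hN1 : 1 < D.natAbs := by omega
  have : NeZero D.natAbs := ⟨hN0⟩
  have hNo : Odd D.natAbs := Nat.odd_iff.2 (by omega)
  obtain ⟨χ, hχ⟩ := KRh.exists_char hN1 (fun n => jacobiSym n D.natAbs) (by simp)
    (fun a b => by simp [jacobiSym.mul_left]) (fun a => by
      simp only [Int.natCast_mod]
      exact (jacobiSym.mod_left _ _).symm) (fun a ha => by
      rw [jacobiSym.eq_zero_iff_not_coprime, Int.gcd_natCast_natCast]
      exact ha)
  refine ⟨χ, ?_, ?_, ?_⟩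
  · apply prim_of
    intro q hq hqN
    obtain ⟨M, hM⟩ := hqN
    have hcop : Nat.Coprime q M := by
      rw [hM] at hsq
      exact (Nat.squarefree_mul_iff.1 hsq).1
    have hq2 : q ≠ 2 := by
      rintro rfl
      omega
    obtain ⟨n, hn1, hn2⟩ := exists_nonres hq hq2 hcop
    have hNq : D.natAbs / q = M := by
      rw [hM]; exact Nat.mul_div_cancel_left M hq.pos
    have hM0 : M ≠ 0 := by rintro rfl; rw [mul_zero] at hM; exact hN0 hM
    have : NeZero M := ⟨hM0⟩
    have : NeZero q := ⟨hq.ne_zero⟩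
    refine ⟨n, ?_, by rw [hNq]; exact hn2, ?_⟩
    · rw [hM]
      apply Nat.Coprime.mul_right (coprime_of_jac hq hn1)
      have := Nat.ModEq.gcd_eq hn2
      rw [Nat.gcd_one_left] at this
      exact this
    · have e2 : jacobiSym n M = 1 := by
        have h5 : ((n : ℤ)) % (M : ℤ) = (1 : ℤ) % (M : ℤ) := by exact_mod_cast hn2
        rw [jacobiSym.mod_left' h5, jacobiSym.one_left]
      have e3 : jacobiSym n D.natAbs = -1 := by
        rw [hM, jacobiSym.mul_right, hn1, e2, mul_one]
      rw [hχ n, e3]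
      norm_num
  · apply inv_self χ _ hχ
    intro n
    exact jacobiSym.trichotomy _ _
  · intro p hp
    rw [hχ]
    norm_cast
    by_cases hp2 : p = 2
    · subst hp2
      rw [SPLh.chi_two]
      have e1 : jacobiSym ((2 : ℕ) : ℤ) D.natAbs = jacobiSym 2 D.natAbs := by norm_num
      rw [e1, jacobiSym.at_two hNo, ZMod.χ₈_nat_eq_if_mod_eight]
      unfold chi2
      have h5 : D % 8 = 1 ∨ D % 8 = 5 := by omega
      rcases h5 with h6 | h6
      · rw [if_neg (by omega), if_pos (by omega), if_pos h6]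
      · rw [if_neg (by omega), if_neg (by omega), if_neg (by omega), if_pos h6]
    · have : Fact p.Prime := ⟨hp⟩
      rw [SPLh.chi_odd D p hp2, jacobiSym.legendreSym.to_jacobiSym,
        recip h4 (hp.odd_of_ne_two hp2)]

theorem exists_quad_four {m : ℤ} (hm : m % 4 = 2 ∨ m % 4 = 3) (hsq : Squarefree m.natAbs) :
    ∃ χ : DirichletCharacter ℂ (4 * m).natAbs, χ.IsPrimitive ∧ χ⁻¹ = χ ∧
      ∀ p : ℕ, p.Prime → χ (p : ZMod (4 * m).natAbs) = (chi (4 * m) p : ℂ) := by
  have hm0 : m.natAbs ≠ 0 := hsq.ne_zero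
  have hNe : (4 * m).natAbs = 4 * m.natAbs := by rw [Int.natAbs_mul]; rfl
  have hN1 : 1 < (4 * m).natAbs := by omega
  have : NeZero (4 * m).natAbs := ⟨by omega⟩
  have : NeZero m.natAbs := ⟨hm0⟩
  obtain ⟨χ, hχ⟩ := KRh.exists_char hN1 (fun n => if Even n then 0 else jacobiSym m n)
    (by simp) (fun a b => by
      by_cases ha : Even a
      · simp [ha]
      · by_cases hb : Even b
        · simp [hb]
        · have hab : ¬ Even (a * b) := by rw [Nat.even_mul]; tauto
          have : NeZero a := ⟨by rintro rfl; exact ha (by simp)⟩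
          have : NeZero b := ⟨by rintro rfl; exact hb (by simp)⟩
          rw [if_neg ha, if_neg hb, if_neg hab, jacobiSym.mul_right]) (fun a => by
      have hpar : Even (a % (4 * m).natAbs) ↔ Even a := by
        rw [hNe, Nat.even_iff, Nat.even_iff, Nat.mod_mod_of_dvd a (Dvd.intro_left (2 * m.natAbs)
          (by ring))]
      by_cases ha : Even a
      · rw [if_pos ha, if_pos (hpar.2 ha)]
      · rw [if_neg ha, if_neg (fun h => ha (hpar.1 h)), hNe,
          ← jacobiSym.mod_right m (Nat.not_even_iff_odd.1 ha)]) (fun a ha => by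
      by_cases hae : Even a
      · rw [if_pos hae]
      · rw [if_neg hae]
        have : NeZero a := ⟨by rintro rfl; exact hae (by simp)⟩
        rw [jacobiSym.eq_zero_iff_not_coprime]
        intro hc
        apply ha
        rw [hNe]
        apply Nat.Coprime.mul_right
        · have h2 : Nat.Coprime a 2 :=
            Nat.coprime_two_right.2 (Nat.not_even_iff_odd.1 hae)
          exact Nat.Coprime.mul_right (k := a) (m := 2) (n := 2) h2 h2
        · rw [Nat.coprime_comm]
          exact hc)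
  refine ⟨χ, ?_, ?_, ?_⟩
  · apply prim_of
    intro q hq hqN
    by_cases hq2 : q = 2
    · subst hq2
      rcases hm with h2 | h3
      · obtain ⟨k, hk⟩ : ∃ k, m = 2 * k := ⟨m / 2, by omega⟩
        have hko : k % 2 = 1 := by omega
        have hnk : (4 * m).natAbs / 2 = 4 * k.natAbs := by omega
        have hno : Odd (4 * k.natAbs + 1) := ⟨2 * k.natAbs, by ring⟩
        refine ⟨4 * k.natAbs + 1, ?_, ?_, ?_⟩
        · have e1 : (4 * m).natAbs = 8 * k.natAbs := by omega
          rw [e1]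
          apply Nat.Coprime.mul_right
          · have h2 : Nat.Coprime (4 * k.natAbs + 1) 2 := Nat.coprime_two_right.2 hno
            exact Nat.Coprime.mul_right (m := 2) (n := 4) h2
              (Nat.Coprime.mul_right (m := 2) (n := 2) h2 h2)
          · simp
        · rw [hnk]
          exact (Nat.add_modEq_left)
        · rw [hχ, if_neg (Nat.not_even_iff_odd.2 hno), hk, jacobiSym.mul_left,
            jac_one_mod hno (Nat.add_modEq_left), jacobiSym.at_two hno,
            ZMod.χ₈_nat_eq_if_mod_eight, if_neg (by omega), if_neg (by omega)]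
          norm_num
      · have hnk : (4 * m).natAbs / 2 = 2 * m.natAbs := by omega
        have hno : Odd (2 * m.natAbs + 1) := ⟨m.natAbs, rfl⟩
        refine ⟨2 * m.natAbs + 1, ?_, ?_, ?_⟩
        · rw [hNe]
          apply Nat.Coprime.mul_right
          · have h2 : Nat.Coprime (2 * m.natAbs + 1) 2 := Nat.coprime_two_right.2 hno
            exact Nat.Coprime.mul_right (m := 2) (n := 2) h2 h2
          · simp
        · rw [hnk]
          exact (Nat.add_modEq_left)
        · have e1 : jacobiSym m ((2 * m.natAbs + 1 : ℕ)) = -1 := by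
            have e2 : m = -(-m) := by ring
            have h1 : (-m) % 4 = 1 := by omega
            conv_lhs => rw [e2]
            rw [Int.natAbs_neg, Int.natAbs_neg]
            rw [jacobiSym.neg _ hno, recip h1 hno, Int.natAbs_neg,
              ZMod.χ₄_nat_three_mod_four (by omega)]
            have h5 : (((2 * m.natAbs + 1 : ℕ) : ℤ)) % (m.natAbs : ℤ) = (1 : ℤ) % (m.natAbs : ℤ) := by
              rw [show ((2 * m.natAbs + 1 : ℕ) : ℤ) = 1 + (m.natAbs : ℤ) * 2 by push_cast; ring]
              exact Int.add_mul_emod_self_left _ _ _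
            rw [jacobiSym.mod_left' h5, jacobiSym.one_left]
            norm_num
          rw [hχ, if_neg (Nat.not_even_iff_odd.2 hno), e1]
          norm_num
    · -- odd prime
      have hqo : Odd q := hq.odd_of_ne_two hq2
      have hqm : q ∣ m.natAbs := by
        rw [hNe] at hqN
        rcases hq.dvd_mul.1 hqN with h | h
        · exfalso
          have : q ∣ 2 ^ 2 := by norm_num; exact h
          exact hq2 ((Nat.prime_dvd_prime_iff_eq hq Nat.prime_two).1 (hq.dvd_of_dvd_pow this))
        · exact h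
      obtain ⟨Q, hQ1, hQ2⟩ : ∃ Q : ℤ, Q % 4 = 1 ∧ Q.natAbs = q := by
        have := Nat.odd_iff.1 hqo
        have : q % 4 = 1 ∨ q % 4 = 3 := by omega
        rcases this with h | h
        · exact ⟨q, by omega, by omega⟩
        · exact ⟨-q, by omega, by omega⟩
      obtain ⟨m', hm'⟩ : Q ∣ m := by
        rw [← Int.natAbs_dvd_natAbs, hQ2]
        exact hqm
      have hmm : m.natAbs = q * m'.natAbs := by rw [hm', Int.natAbs_mul, hQ2]
      have hcop : Nat.Coprime q m'.natAbs := by
        rw [hmm] at hsq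
        exact (Nat.squarefree_mul_iff.1 hsq).1
      have hcop4 : Nat.Coprime q (4 * m'.natAbs) := by
        apply Nat.Coprime.mul_right _ hcop
        have h2 : Nat.Coprime q 2 := Nat.coprime_two_right.2 hqo
        exact Nat.Coprime.mul_right (m := 2) (n := 2) h2 h2
      obtain ⟨n, hn1, hn2⟩ := exists_nonres hq hq2 hcop4
      have hNq : (4 * m).natAbs / q = 4 * m'.natAbs := by
        rw [hNe, hmm]
        apply Nat.div_eq_of_eq_mul_left hq.pos
        ring
      have hnc : n.Coprime (4 * m'.natAbs) := by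
        have := Nat.ModEq.gcd_eq hn2
        rw [Nat.gcd_one_left] at this
        exact this
      have hno : Odd n := by
        apply Nat.coprime_two_right.1
        exact Nat.Coprime.coprime_dvd_right (Dvd.intro (2 * m'.natAbs) (by ring)) hnc
      refine ⟨n, ?_, by rw [hNq]; exact hn2, ?_⟩
      · have e1 : (4 * m).natAbs = q * (4 * m'.natAbs) := by rw [hNe, hmm]; ring
        rw [e1]
        exact Nat.Coprime.mul_right (coprime_of_jac hq hn1) hnc
      · rw [hχ, if_neg (Nat.not_even_iff_odd.2 hno), hm', jacobiSym.mul_left,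
          jac_one_mod hno hn2, recip hQ1 hno, hQ2, hn1]
        norm_num
  · apply inv_self χ _ hχ
    intro n
    split_ifs
    · exact Or.inl rfl
    · exact jacobiSym.trichotomy _ _
  · intro p hp
    rw [hχ]
    norm_cast
    by_cases hp2 : p = 2
    · subst hp2
      rw [SPLh.chi_two, if_pos (by decide)]
      unfold chi2
      rw [if_neg (by omega), if_neg (by omega)]
    · have : Fact p.Prime := ⟨hp⟩
      have hpo := hp.odd_of_ne_two hp2
      rw [SPLh.chi_odd _ p hp2, jacobiSym.legendreSym.to_jacobiSym,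
        if_neg (Nat.not_even_iff_odd.2 hpo), jacobiSym.mul_left, jacobiSym.at_four hpo, one_mul]

theorem exists_quad {D : ℤ} (hD : Fund D) (h1 : D ≠ 1) :
    ∃ χ : DirichletCharacter ℂ D.natAbs, χ.IsPrimitive ∧ χ⁻¹ = χ ∧
      ∀ p : ℕ, p.Prime → χ (p : ZMod D.natAbs) = (chi D p : ℂ) := by
  rcases hD with ⟨h, h'⟩ | ⟨m, rfl, h, h'⟩
  · exact exists_quad_one h h' h1
  · exact exists_quad_four h h'

end Pool.Agent.K4H20.QF
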