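import Pool.Agent.K4H20.QF.C

set_option autoImplicit false

/-! Splitting of primes in a quadratic field of arbitrary signature. -/

namespace Pool.Agent.K4H20.QF

open NumberTheorySymbols NumberField Module
open Pool.Agent.H38R2.CG Pool.Agent.H38R2.CG.SPLh

variable {K : Type} [Field K] [NumberField K]

theorem spl {D n : ℤ} (hn : 4 * n = D ^ 2 - D) (C : Co K D n) (h2 : finrank ℚ K = 2)
    (p : ℕ) (hp : p.Prime) :
    (chi D p = 1 → ∃ P P' : Ideal (𝓞 K), P ≠ P' ∧ P.IsPrime ∧ P'.IsPrime ∧
      Ideal.absNorm P = p ∧ Ideal.absNorm P' = p ∧ P * P' = Ideal.span {(p : 𝓞 K)}) ∧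
    (chi D p = 0 → ∃ P : Ideal (𝓞 K), P.IsPrime ∧ Ideal.absNorm P = p ∧
      P ^ 2 = Ideal.span {(p : 𝓞 K)}) ∧
    (chi D p = -1 → (Ideal.span {(p : 𝓞 K)}).IsPrime) := by
  have hD4 : D % 4 = 0 ∨ D % 4 = 1 := by
    have h3 : D % 4 = 0 ∨ D % 4 = 1 ∨ D % 4 = 2 ∨ D % 4 = 3 := by omega
    rcases h3 with h | h | h | h
    · exact Or.inl h
    · exact Or.inr h
    · exfalso
      obtain ⟨k, hk⟩ : ∃ k, D = 4 * k + 2 := ⟨D / 4, by omega⟩
      rw [hk] at hn
      ring_nf at hn
      omega
    · exfalso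
      obtain ⟨k, hk⟩ : ∃ k, D = 4 * k + 3 := ⟨D / 4, by omega⟩
      rw [hk] at hn
      ring_nf at hn
      omega
  by_cases hp2 : p = 2
  · subst hp2
    rw [chi_two]
    -- parity of `n`
    have h8 : D % 8 = 1 ∨ D % 8 = 5 ∨ D % 4 = 0 := by omega
    refine ⟨?_, ?_, ?_⟩
    · intro h
      have h1 : D % 8 = 1 := by
        unfold chi2 at h
        by_contra hc
        rw [if_neg hc] at h
        split_ifs at h
        · norm_num at h
      obtain ⟨k, hk⟩ : ∃ k, D = 8 * k + 1 := ⟨D / 8, by omega⟩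
      have hn2 : n = 2 * (8 * k ^ 2 + k) := by
        rw [hk] at hn
        linarith
      have hnz : ((n : ℤ) : ZMod 2) = 0 := by
        rw [ZMod.intCast_zmod_eq_zero_iff_dvd]; exact ⟨_, by rw [hn2]; rfl⟩
      have hDz : (D : ZMod 2) = 1 := by
        have : (D - 1 : ℤ) = 2 * (4 * k) := by rw [hk]; ring
        have h3 : ((D - 1 : ℤ) : ZMod 2) = 0 := by
          rw [ZMod.intCast_zmod_eq_zero_iff_dvd]; exact ⟨_, by rw [this]; rfl⟩
        rw [Int.cast_sub, Int.cast_one] at h3
        exact sub_eq_zero.1 h3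
      apply split_case C h2 2 hp 0 1
      · rw [hnz]; simp
      · rw [hnz, hDz]; simp
      · decide
    · intro h
      have h1 : D % 4 = 0 := by
        unfold chi2 at h
        rcases h8 with h3 | h3 | h3
        · rw [if_pos h3] at h; exact absurd h one_ne_zero
        · rw [if_neg (by omega), if_pos h3] at h
          norm_num at h
        · exact h3
      obtain ⟨k, hk⟩ : ∃ k, D = 4 * k := ⟨D / 4, by omega⟩
      have hn2 : n = 4 * k ^ 2 - k := by
        rw [hk] at hn
        linarith
      apply ram_case C h2 2 hp (k : ZMod 2)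
      · rw [hk]
        push_cast
        have : (4 : ZMod 2) = 0 := by decide
        have h22 : (2 : ZMod 2) = 0 := by decide
        rw [this, h22, zero_mul]
      · rw [hn2]
        push_cast
        have : (4 : ZMod 2) = 0 := by decide
        rw [this]
        generalize ((k : ℤ) : ZMod 2) = t
        revert t
        decide
    · intro h
      have h1 : D % 8 = 5 := by
        unfold chi2 at h
        rcases h8 with h3 | h3 | h3
        · rw [if_pos h3] at h; norm_num at h
        · exact h3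
        · rw [if_neg (by omega), if_neg (by omega)] at h
          norm_num at h
      obtain ⟨k, hk⟩ : ∃ k, D = 8 * k + 5 := ⟨D / 8, by omega⟩
      have hn2 : n = 2 * (8 * k ^ 2 + 9 * k + 2) + 1 := by
        rw [hk] at hn
        linarith
      apply inert_case C 2 hp
      intro a b hab
      have hnz : ((n : ℤ) : ZMod 2) = 1 := by
        rw [hn2]; push_cast
        have h22 : (2 : ZMod 2) = 0 := by decide
        rw [h22]; ring
      have hDz : (D : ZMod 2) = 1 := by
        rw [hk]; push_cast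
        have h22 : (8 : ZMod 2) = 0 := by decide
        rw [h22, zero_mul, zero_add]
        decide
      have h3 : ((a ^ 2 + D * (a * b) + n * b ^ 2 : ℤ) : ZMod 2) = 0 :=
        (ZMod.intCast_zmod_eq_zero_iff_dvd _ 2).2 hab
      rw [Int.cast_add, Int.cast_add, Int.cast_mul, Int.cast_mul n, hnz, hDz] at h3
      push_cast at h3
      have h4 : ∀ x y : ZMod 2, x ^ 2 + 1 * (x * y) + 1 * y ^ 2 = 0 → x = 0 ∧ y = 0 := by decide
      obtain ⟨h5, h6⟩ := h4 _ _ h3
      exact ⟨(ZMod.intCast_zmod_eq_zero_iff_dvd _ 2).1 h5,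
        (ZMod.intCast_zmod_eq_zero_iff_dvd _ 2).1 h6⟩
  · have : Fact p.Prime := ⟨hp⟩
    rw [SPLh.chi_odd _ p hp2]
    have h20 : (2 : ZMod p) ≠ 0 := by
      intro h
      have : ((2 : ℕ) : ZMod p) = 0 := by exact_mod_cast h
      rw [ZMod.natCast_eq_zero_iff] at this
      exact hp2 ((Nat.prime_dvd_prime_iff_eq hp Nat.prime_two).1 this)
    have h40 : (4 : ZMod p) ≠ 0 := by
      have : (4 : ZMod p) = 2 * 2 := by norm_num
      rw [this]; exact mul_ne_zero h20 h20
    have hnz : (4 : ZMod p) * (n : ZMod p) = (D : ZMod p) ^ 2 - (D : ZMod p) := by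
      have := congrArg (fun z : ℤ => (z : ZMod p)) hn
      push_cast at this
      push_cast
      exact this
    refine ⟨?_, ?_, ?_⟩
    · intro h
      have hD0 : (D : ZMod p) ≠ 0 := by
        intro h0
        rw [(legendreSym.eq_zero_iff p _).2 h0] at h
        norm_num at h
      obtain ⟨s, hs⟩ := (legendreSym.eq_one_iff p hD0).1 h
      have hs0 : s ≠ 0 := by
        rintro rfl
        rw [mul_zero] at hs
        exact hD0 hs
      apply split_case C h2 p hp (((D : ZMod p) + s) / 2) (((D : ZMod p) - s) / 2)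
      · apply mul_left_cancel₀ h40
        rw [mul_zero]
        have e1 : (4 : ZMod p) * (((((D : ZMod p) + s) / 2) ^ 2 - (D : ZMod p) *
          (((D : ZMod p) + s) / 2) + (n : ZMod p))) =
          ((D : ZMod p) + s) ^ 2 - 2 * (D : ZMod p) * ((D : ZMod p) + s) +
            4 * (n : ZMod p) := by
          field_simp
          ring
        rw [e1, hnz]
        linear_combination -hs
      · apply mul_left_cancel₀ h40
        rw [mul_zero]
        have e1 : (4 : ZMod p) * (((((D : ZMod p) - s) / 2) ^ 2 - (D : ZMod p) *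
          (((D : ZMod p) - s) / 2) + (n : ZMod p))) =
          ((D : ZMod p) - s) ^ 2 - 2 * (D : ZMod p) * ((D : ZMod p) - s) +
            4 * (n : ZMod p) := by
          field_simp
          ring
        rw [e1, hnz]
        linear_combination -hs
      · intro h5
        have h6 : (2 : ZMod p) * s = 0 := by
          field_simp at h5
          linear_combination h5
        exact hs0 ((mul_eq_zero.1 h6).resolve_left h20)
    · intro h
      have h0 : (D : ZMod p) = 0 := (legendreSym.eq_zero_iff p _).1 h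
      apply ram_case C h2 p hp 0
      · rw [h0, mul_zero]
      · rw [h0] at hnz
        have : (4 : ZMod p) * (n : ZMod p) = 0 := by rw [hnz]; ring
        rw [(mul_eq_zero.1 this).resolve_left h40]
        ring
    · intro h
      have hns : ¬ IsSquare (D : ZMod p) := (legendreSym.eq_neg_one_iff p).1 h
      apply inert_case C p hp
      intro a b hab
      have h3 : ((a ^ 2 + D * (a * b) + n * b ^ 2 : ℤ) : ZMod p) = 0 :=
        (ZMod.intCast_zmod_eq_zero_iff_dvd _ p).2 hab
      rw [Int.cast_add, Int.cast_add, Int.cast_mul, Int.cast_mul n, Int.cast_pow, Int.cast_pow,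
        Int.cast_mul a b] at h3
      rw [← ZMod.intCast_zmod_eq_zero_iff_dvd, ← ZMod.intCast_zmod_eq_zero_iff_dvd]
      generalize (D : ZMod p) = d at *
      generalize (n : ZMod p) = m at *
      generalize (a : ZMod p) = x at *
      generalize (b : ZMod p) = y at *
      have h4 : (2 * x + d * y) ^ 2 = d * y ^ 2 := by
        linear_combination 4 * h3 - y ^ 2 * hnz
      have hy : y = 0 := by
        by_contra hy
        apply hns
        refine ⟨(2 * x + d * y) / y, ?_⟩
        field_simp
        rw [h4]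
      rw [hy] at h4
      have h5 : (2 * x) ^ 2 = 0 := by
        have : (2 * x + d * 0) ^ 2 = (2 * x) ^ 2 := by ring
        rw [← this, h4]; ring
      have h6 : 2 * x = 0 := by
        exact pow_eq_zero_iff (two_ne_zero) |>.1 h5
      exact ⟨(mul_eq_zero.1 h6).resolve_left h20, hy⟩

/-- the number of prime ideals of norm `p` -/
noncomputable def nP (K : Type) [Field K] [NumberField K] (p : ℕ) : ℕ :=
  Nat.card {P : Ideal (𝓞 K) // P.IsPrime ∧ Ideal.absNorm P = p}

theorem norm_p (h2 : finrank ℚ K = 2) (p : ℕ) :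
    Ideal.absNorm (Ideal.span {(p : 𝓞 K)}) = p ^ 2 := by
  rw [Ideal.absNorm_span_singleton]
  have : (p : 𝓞 K) = algebraMap ℤ (𝓞 K) (p : ℤ) := by simp
  rw [this, Algebra.norm_algebraMap, RingOfIntegers.rank, h2, Int.natAbs_pow, Int.natAbs_natCast]

theorem le_of_norm {P I : Ideal (𝓞 K)} {p : ℕ} (hp : p.Prime) (hP : P.IsPrime)
    (hPn : Ideal.absNorm P = p) (hI : I.IsPrime) (h : P ≤ I) : I = P := by
  have hP0 : P ≠ ⊥ := by
    rintro rfl
    rw [Ideal.absNorm_bot] at hPn
    exact hp.ne_zero hPn.symm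
  have hm : P.IsMaximal := hP.isMaximal hP0
  exact (hm.eq_of_le hI.ne_top h).symm

theorem mem_of_norm {I : Ideal (𝓞 K)} {p : ℕ} (h : Ideal.absNorm I = p) :
    Ideal.span {(p : 𝓞 K)} ≤ I := by
  rw [Ideal.span_singleton_le_iff_mem, ← h]
  exact Ideal.absNorm_mem I

theorem nP_eq {D n : ℤ} (hn : 4 * n = D ^ 2 - D) (C : Co K D n) (h2 : finrank ℚ K = 2)
    (p : ℕ) (hp : p.Prime) : (nP K p : ℤ) - 1 = chi D p := by
  obtain ⟨s1, s2, s3⟩ := spl hn C h2 p hp
  have h3 : chi D p = 0 ∨ chi D p = 1 ∨ chi D p = -1 := by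
    by_cases hp2 : p = 2
    · subst hp2
      rw [chi_two]
      unfold chi2
      split_ifs <;> simp
    · have : Fact p.Prime := ⟨hp⟩
      rw [SPLh.chi_odd _ p hp2, jacobiSym.legendreSym.to_jacobiSym]
      exact jacobiSym.trichotomy _ _
  rcases h3 with h | h | h
  · obtain ⟨P, hP, hPn, hPp⟩ := s2 h
    have : nP K p = 1 := by
      unfold nP
      rw [Nat.card_eq_one_iff_unique]
      refine ⟨⟨?_⟩, ⟨⟨P, hP, hPn⟩⟩⟩
      have key : ∀ I : Ideal (𝓞 K), I.IsPrime → Ideal.absNorm I = p → I = P := by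
        intro I hI hIn
        apply le_of_norm hp hP hPn hI
        have h4 := mem_of_norm hIn
        rw [← hPp, pow_two] at h4
        rcases hI.mul_le.1 h4 with h5 | h5 <;> exact h5
      rintro ⟨I, hI, hIn⟩ ⟨J, hJ, hJn⟩
      rw [Subtype.mk.injEq, key I hI hIn, key J hJ hJn]
    rw [this, h]
    norm_num
  · obtain ⟨P, P', hne, hP, hP', hPn, hPn', hPp⟩ := s1 h
    have : nP K p = 2 := by
      unfold nP
      rw [Nat.card_eq_two_iff]
      refine ⟨⟨P, hP, hPn⟩, ⟨P', hP', hPn'⟩, ?_, ?_⟩
      · intro h4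
        exact hne (congrArg Subtype.val h4)
      · rw [Set.eq_univ_iff_forall]
        rintro ⟨I, hI, hIn⟩
        have h4 := mem_of_norm hIn
        rw [← hPp] at h4
        rcases hI.mul_le.1 h4 with h5 | h5
        · left
          rw [Subtype.mk.injEq]
          exact le_of_norm hp hP hPn hI h5
        · right
          rw [Set.mem_singleton_iff, Subtype.mk.injEq]
          exact le_of_norm hp hP' hPn' hI h5
    rw [this, h]
    norm_num
  · have hpr := s3 h
    have : nP K p = 0 := by
      unfold nP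
      rw [Nat.card_eq_zero]
      left
      refine ⟨?_⟩
      rintro ⟨I, hI, hIn⟩
      have h4 := mem_of_norm hIn
      have h0 : Ideal.span {(p : 𝓞 K)} ≠ ⊥ := by
        intro h5
        have h6 := norm_p (K := K) h2 p
        rw [h5, Ideal.absNorm_bot] at h6
        exact hp.ne_zero (pow_eq_zero_iff (two_ne_zero) |>.1 h6.symm)
      have hm : (Ideal.span {(p : 𝓞 K)}).IsMaximal := hpr.isMaximal h0
      have h5 := hm.eq_of_le hI.ne_top h4
      rw [← h5, norm_p h2] at hIn
      have := hp.one_lt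
      nlinarith
    rw [this, h]
    norm_num

/-- the quadratic character of a quadratic field -/
theorem exists_char (h2 : finrank ℚ K = 2) :
    ∃ χ : DirichletCharacter ℂ (discr K).natAbs, χ.IsPrimitive ∧ χ⁻¹ = χ ∧
      ∀ p : ℕ, p.Prime → χ (p : ZMod (discr K).natAbs) = (((nP K p : ℤ) - 1 : ℤ) : ℂ) := by
  obtain ⟨n, hn, ⟨C⟩⟩ := exists_co h2
  have hF := fund_of hn C (NumberField.discr_ne_zero K)
  have h1 : discr K ≠ 1 := by
    intro h
    have := NumberField.abs_discr_gt_two (K := K) (by rw [h2]; norm_num)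
    rw [h] at this
    norm_num at this
  obtain ⟨χ, a1, a2, a3⟩ := exists_quad hF h1
  refine ⟨χ, a1, a2, fun p hp => ?_⟩
  rw [a3 p hp, nP_eq hn C h2 p hp]

end Pool.Agent.K4H20.QF
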